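import Mathlib

set_option autoImplicit false

/-!
# Counting subsets that meet many disjoint sets in the same number of points
-/

namespace Pool.Agent.H726.BD

open Finset

/-- subsets of `W` that meet all `L b`, `b ∈ B`, in `t` points -/
theorem cnt_le {ι V : Type} [DecidableEq ι] [DecidableEq V] (L : ι → Finset V) (t : ℕ) (ρ : ℝ)
    (hρ : 0 ≤ ρ) (B : Finset ι) : ∀ W : Finset V, (∀ b ∈ B, L b ⊆ W) →
    (∀ b ∈ B, ∀ b' ∈ B, b ≠ b' → Disjoint (L b) (L b')) →
    (∀ b ∈ B, (((L b).card.choose t : ℕ) : ℝ) ≤ ρ * 2 ^ (L b).card) →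
    ((W.powerset.filter fun S => ∀ b ∈ B, (L b ∩ S).card = t).card : ℝ) ≤
      ρ ^ B.card * 2 ^ W.card := by
  induction B using Finset.induction_on with
  | empty =>
    intro W _ _ _
    simp
  | insert b B hb ih =>
    intro W hW hdis hch
    have hLW : L b ⊆ W := hW b (mem_insert_self _ _)
    have ih' := ih (W \ L b)
      (fun b' hb' => by
        have hne : b ≠ b' := fun h => hb (h ▸ hb')
        have hd := hdis b (mem_insert_self _ _) b' (mem_insert_of_mem hb') hne
        intro x hx
        exact mem_sdiff.2 ⟨hW b' (mem_insert_of_mem hb') hx, fun h => (disjoint_left.1 hd) h hx⟩)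
      (fun b1 h1 b2 h2 => hdis b1 (mem_insert_of_mem h1) b2 (mem_insert_of_mem h2))
      (fun b' hb' => hch b' (mem_insert_of_mem hb'))
    have hinj : (W.powerset.filter fun S => ∀ b' ∈ insert b B, (L b' ∩ S).card = t).card ≤
        ((powersetCard t (L b)) ×ˢ ((W \ L b).powerset.filter fun S => ∀ b' ∈ B,
          (L b' ∩ S).card = t)).card := by
      refine card_le_card_of_injOn (fun S => (L b ∩ S, S \ L b)) ?_ ?_
      · intro S hS
        rw [mem_coe, mem_filter, mem_powerset] at hS
        rw [mem_coe, mem_product, mem_powersetCard, mem_filter, mem_powerset]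
        refine ⟨⟨inter_subset_left, hS.2 b (mem_insert_self _ _)⟩, ?_, ?_⟩
        · exact sdiff_subset_sdiff hS.1 (Subset.refl _)
        · intro b' hb'
          have hne : b ≠ b' := fun h => hb (h ▸ hb')
          have hd := hdis b (mem_insert_self _ _) b' (mem_insert_of_mem hb') hne
          rw [← hS.2 b' (mem_insert_of_mem hb')]
          congr 1
          ext x
          simp only [mem_inter, mem_sdiff]
          constructor
          · rintro ⟨h1, h2, _⟩; exact ⟨h1, h2⟩
          · rintro ⟨h1, h2⟩; exact ⟨h1, h2, fun h => (disjoint_left.1 hd) h h1⟩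
      · intro S hS S' hS' h
        have h1 : L b ∩ S = L b ∩ S' := congrArg Prod.fst h
        have h2 : S \ L b = S' \ L b := congrArg Prod.snd h
        ext x
        by_cases hx : x ∈ L b
        · have := congrArg (fun A => x ∈ A) h1
          simpa [hx] using this
        · have := congrArg (fun A => x ∈ A) h2
          simpa [hx] using this
    have h3 : ((W.powerset.filter fun S => ∀ b' ∈ insert b B, (L b' ∩ S).card = t).card : ℝ) ≤
        ((L b).card.choose t : ℝ) * (((W \ L b).powerset.filter fun S => ∀ b' ∈ B,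
          (L b' ∩ S).card = t).card : ℝ) := by
      have := hinj
      rw [card_product, card_powersetCard] at this
      exact_mod_cast this
    refine h3.trans ?_
    calc ((L b).card.choose t : ℝ) * (((W \ L b).powerset.filter fun S => ∀ b' ∈ B,
          (L b' ∩ S).card = t).card : ℝ)
        ≤ (ρ * 2 ^ (L b).card) * (ρ ^ B.card * 2 ^ (W \ L b).card) :=
          mul_le_mul (hch b (mem_insert_self _ _)) ih' (by positivity) (by positivity)
      _ = ρ ^ (insert b B).card * 2 ^ W.card := by
          rw [card_insert_of_notMem hb, card_sdiff_of_subset hLW]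
          have h4 : (L b).card ≤ W.card := card_le_card hLW
          have h5 : (2 : ℝ) ^ W.card = 2 ^ (L b).card * 2 ^ (W.card - (L b).card) := by
            rw [← pow_add, Nat.add_sub_cancel' h4]
          rw [h5]; ring

/-- number of subsets that meet at least `K` of the disjoint sets `L b` in `t` points -/
theorem bad_le {ι V : Type} [Fintype ι] [DecidableEq ι] [Fintype V] [DecidableEq V]
    (L : ι → Finset V) (t K : ℕ) (ρ : ℝ) (hρ : 0 ≤ ρ)
    (hdis : ∀ b b', b ≠ b' → Disjoint (L b) (L b'))
    (hch : ∀ b, (((L b).card.choose t : ℕ) : ℝ) ≤ ρ * 2 ^ (L b).card) :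
    (((univ : Finset (Finset V)).filter fun S =>
      K ≤ (univ.filter fun b => (L b ∩ S).card = t).card).card : ℝ) ≤
      ((Fintype.card ι).choose K : ℝ) * (ρ ^ K * 2 ^ Fintype.card V) := by
  have hsub : ((univ : Finset (Finset V)).filter fun S =>
      K ≤ (univ.filter fun b => (L b ∩ S).card = t).card) ⊆
      (powersetCard K (univ : Finset ι)).biUnion fun B =>
        ((univ : Finset V).powerset.filter fun S => ∀ b ∈ B, (L b ∩ S).card = t) := by
    intro S hS
    rw [mem_filter] at hS
    obtain ⟨B, hB, hBc⟩ := exists_subset_card_eq hS.2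
    rw [mem_biUnion]
    refine ⟨B, mem_powersetCard.2 ⟨subset_univ _, hBc⟩, ?_⟩
    rw [mem_filter]
    refine ⟨mem_powerset.2 (subset_univ _), fun b hb => ?_⟩
    exact (mem_filter.1 (hB hb)).2
  have h1 := (card_le_card hsub).trans card_biUnion_le
  have h2 : (((univ : Finset (Finset V)).filter fun S =>
      K ≤ (univ.filter fun b => (L b ∩ S).card = t).card).card : ℝ) ≤
      ∑ B ∈ powersetCard K (univ : Finset ι),
        (((univ : Finset V).powerset.filter fun S => ∀ b ∈ B, (L b ∩ S).card = t).card : ℝ) := by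
    exact_mod_cast h1
  refine h2.trans ?_
  have h3 : ∀ B ∈ powersetCard K (univ : Finset ι),
      (((univ : Finset V).powerset.filter fun S => ∀ b ∈ B, (L b ∩ S).card = t).card : ℝ) ≤
        ρ ^ K * 2 ^ Fintype.card V := by
    intro B hB
    have h := cnt_le L t ρ hρ B univ (fun b _ => subset_univ _)
      (fun b _ b' _ hne => hdis b b' hne) (fun b _ => hch b)
    rw [(mem_powersetCard.1 hB).2, card_univ] at h
    refine (le_of_eq ?_).trans h
    have e : ∀ (d : DecidablePred fun S : Finset V => ∀ b ∈ B, (L b ∩ S).card = t)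
        (d' : DecidablePred fun S : Finset V => ∀ b ∈ B, (L b ∩ S).card = t),
        (@filter _ (fun S : Finset V => ∀ b ∈ B, (L b ∩ S).card = t) d (univ : Finset V).powerset).card =
        (@filter _ (fun S : Finset V => ∀ b ∈ B, (L b ∩ S).card = t) d' (univ : Finset V).powerset).card := by
      intro d d'
      have : @filter _ (fun S : Finset V => ∀ b ∈ B, (L b ∩ S).card = t) d (univ : Finset V).powerset =
          @filter _ (fun S : Finset V => ∀ b ∈ B, (L b ∩ S).card = t) d' (univ : Finset V).powerset := by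
        ext S; simp only [mem_filter]
      rw [this]
    exact_mod_cast e _ _
  refine (sum_le_card_nsmul _ _ _ h3).trans (le_of_eq ?_)
  rw [card_powersetCard, card_univ, nsmul_eq_mul]

/-- central binomial coefficients -/
theorem cb_sq_le (m : ℕ) : ((m.centralBinom : ℝ)) ^ 2 * (2 * m + 1) ≤ 16 ^ m := by
  induction m with
  | zero => simp
  | succ m ih =>
    have h := Nat.succ_mul_centralBinom_succ m
    have h' : ((m : ℝ) + 1) * ((m + 1).centralBinom : ℝ) = 2 * (2 * m + 1) * (m.centralBinom : ℝ) := by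
      exact_mod_cast h
    have hm : (0 : ℝ) ≤ m := Nat.cast_nonneg m
    have h2 : (((m : ℝ) + 1) * ((m + 1).centralBinom : ℝ)) ^ 2 =
        (2 * (2 * m + 1) * (m.centralBinom : ℝ)) ^ 2 := by rw [h']
    have h3 : ((m : ℝ) + 1) ^ 2 * (((m + 1).centralBinom : ℝ) ^ 2 * (2 * ((m + 1 : ℕ) : ℝ) + 1)) =
        4 * (2 * m + 1) * (2 * m + 3) * ((m.centralBinom : ℝ) ^ 2 * (2 * m + 1)) := by
      push_cast
      nlinarith [h2]
    have h4 : 4 * (2 * (m : ℝ) + 1) * (2 * m + 3) * ((m.centralBinom : ℝ) ^ 2 * (2 * m + 1)) ≤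
        4 * (2 * (m : ℝ) + 1) * (2 * m + 3) * 16 ^ m :=
      mul_le_mul_of_nonneg_left ih (by positivity)
    have h5 : 4 * (2 * (m : ℝ) + 1) * (2 * m + 3) * 16 ^ m ≤ ((m : ℝ) + 1) ^ 2 * 16 ^ (m + 1) := by
      rw [pow_succ (16 : ℝ) m]
      have : (0 : ℝ) < 16 ^ m := by positivity
      nlinarith [this]
    have h6 : ((m : ℝ) + 1) ^ 2 * (((m + 1).centralBinom : ℝ) ^ 2 * (2 * ((m + 1 : ℕ) : ℝ) + 1)) ≤
        ((m : ℝ) + 1) ^ 2 * 16 ^ (m + 1) := by
      rw [h3]; exact h4.trans h5
    exact le_of_mul_le_mul_left h6 (by positivity)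

theorem cb_le (m : ℕ) : (m.centralBinom : ℝ) ≤ 1 / Real.sqrt (2 * m + 1) * 4 ^ m := by
  have h := cb_sq_le m
  have hpos : (0 : ℝ) < 2 * m + 1 := by positivity
  have hs : 0 < Real.sqrt (2 * m + 1) := Real.sqrt_pos.2 hpos
  rw [one_div, inv_mul_eq_div, le_div_iff₀ hs]
  have h2 : ((m.centralBinom : ℝ) * Real.sqrt (2 * m + 1)) ^ 2 ≤ (4 ^ m) ^ 2 := by
    rw [mul_pow, Real.sq_sqrt hpos.le]
    refine h.trans (le_of_eq ?_)
    rw [← pow_mul, mul_comm, pow_mul]; norm_num
  exact le_of_sq_le_sq h2 (by positivity)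

/-- every binomial coefficient is small against `2 ^ j` -/
theorem choose_le (j t : ℕ) : ((j.choose t : ℕ) : ℝ) ≤ 1 / Real.sqrt (j + 1) * 2 ^ j := by
  have h0 : ((j.choose t : ℕ) : ℝ) ≤ (j.choose (j / 2) : ℝ) := by
    exact_mod_cast Nat.choose_le_middle t j
  refine h0.trans ?_
  rcases Nat.even_or_odd' j with ⟨m, hm | hm⟩
  · have hd : j / 2 = m := by omega
    have h2 : (j.choose m : ℝ) = (m.centralBinom : ℝ) := by rw [hm]; rfl
    rw [hd, h2]
    have e1 : (2 : ℝ) ^ j = 4 ^ m := by rw [hm, pow_mul]; norm_num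
    have e2 : (j : ℝ) + 1 = 2 * m + 1 := by rw [hm]; push_cast; ring
    rw [e1, e2]
    exact cb_le m
  · have hd : j / 2 = m := by omega
    rw [hd]
    have h2 : 2 * (j.choose m) = ((m + 1).centralBinom) := by
      have e : (m + 1).centralBinom = (2 * m + 1 + 1).choose (m + 1) := by
        unfold Nat.centralBinom; rfl
      rw [e, Nat.choose_succ_succ, hm]
      have : (2 * m + 1).choose (m + 1) = (2 * m + 1).choose m := by
        apply Nat.choose_symm_of_eq_add; omega
      rw [Nat.succ_eq_add_one, this]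
      ring
    have h2' : 2 * (j.choose m : ℝ) = ((m + 1).centralBinom : ℝ) := by exact_mod_cast h2
    have h3 := cb_le (m + 1)
    rw [← h2'] at h3
    have e1 : (4 : ℝ) ^ (m + 1) = 2 * 2 ^ j := by
      rw [hm]
      have : (4 : ℝ) = 2 ^ 2 := by norm_num
      rw [this, ← pow_mul]; ring
    rw [e1] at h3
    have h4 : 1 / Real.sqrt (2 * ((m + 1 : ℕ) : ℝ) + 1) ≤ 1 / Real.sqrt ((j : ℝ) + 1) := by
      apply one_div_le_one_div_of_le (Real.sqrt_pos.2 (by positivity))
      apply Real.sqrt_le_sqrt
      rw [hm]; push_cast; linarith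
    have h5 : (0 : ℝ) < 2 ^ j := by positivity
    nlinarith [mul_le_mul_of_nonneg_right h4 h5.le]

end Pool.Agent.H726.BD
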