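import Pool.Agent.H726.BD.Lines

set_option autoImplicit false

/-!
# A good set of `n` points
-/

namespace Pool.Agent.H726.BD

open Finset

lemma num_le (q K u : ℕ) (ρ : ℝ) (hρ0 : 0 ≤ ρ) (hu : 1 ≤ u) (hK : K = 11 * u)
    (hρ : (q : ℝ) * ρ ≤ 2 * u) : ((q.choose K : ℕ) : ℝ) * ρ ^ K ≤ (1 / 2) ^ K := by
  have hKpos : (0 : ℝ) < K := by rw [hK]; exact_mod_cast (by omega : 0 < 11 * u)
  have h1 : ((q.choose K : ℕ) : ℝ) ≤ (q : ℝ) ^ K / (K.factorial : ℝ) := Nat.choose_le_pow_div K q
  have h2 : (K : ℝ) ^ K / (K.factorial : ℝ) ≤ Real.exp K :=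
    Real.pow_div_factorial_le_exp (K : ℝ) hKpos.le K
  have hf : (0 : ℝ) < (K.factorial : ℝ) := by exact_mod_cast K.factorial_pos
  have h3 : ((q.choose K : ℕ) : ℝ) * ρ ^ K ≤ ((q * ρ) * Real.exp 1 / K) ^ K := by
    calc ((q.choose K : ℕ) : ℝ) * ρ ^ K ≤ (q : ℝ) ^ K / (K.factorial : ℝ) * ρ ^ K :=
          mul_le_mul_of_nonneg_right h1 (by positivity)
      _ = (q * ρ) ^ K / (K : ℝ) ^ K * ((K : ℝ) ^ K / (K.factorial : ℝ)) := by
          rw [mul_pow]; field_simp
      _ ≤ (q * ρ) ^ K / (K : ℝ) ^ K * Real.exp K :=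
          mul_le_mul_of_nonneg_left h2 (by positivity)
      _ = ((q * ρ) * Real.exp 1 / K) ^ K := by
          have e : Real.exp (K : ℝ) = Real.exp 1 ^ K := by rw [← Real.exp_nat_mul, mul_one]
          rw [e, div_pow, mul_pow ((q : ℝ) * ρ) (Real.exp 1) K]
          ring
  refine h3.trans ?_
  refine pow_le_pow_left₀ (by positivity) ?_ K
  rw [div_le_iff₀ hKpos]
  have he : Real.exp 1 < 2.7182818286 := Real.exp_one_lt_d9
  have hupos : (1 : ℝ) ≤ u := by exact_mod_cast hu
  have hK' : (K : ℝ) = 11 * u := by rw [hK]; push_cast; ring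
  rw [hK']
  have h4 : (q : ℝ) * ρ * Real.exp 1 ≤ 2 * u * Real.exp 1 :=
    mul_le_mul_of_nonneg_right hρ (Real.exp_pos _).le
  nlinarith

theorem good_set (n q : ℕ) (hq : q.Prime) (h1 : 2 * n < q * q) (h2 : q * q ≤ 8 * n) (hn : 4 ≤ n) :
    ∃ S : Finset (Fin (2 * n)), S.card = n ∧ ∀ (m : ZMod q) (t : ℕ),
      (letI : NeZero q := ⟨hq.ne_zero⟩;
        (univ.filter fun b : ZMod q => (Ln q (2 * n) m b ∩ S).card = t).card) <
        11 * (Nat.sqrt q + 1) := by
  have : Fact q.Prime := ⟨hq⟩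
  have : NeZero q := ⟨hq.ne_zero⟩
  set u := Nat.sqrt q + 1 with hu
  set K := 11 * u with hK
  set a := 2 * n / q with ha
  set ρ : ℝ := 1 / Real.sqrt (a + 1) with hρdef
  have hqpos : 0 < q := hq.pos
  have hu2 : q < u ^ 2 := Nat.lt_succ_sqrt' q
  have hρ0 : 0 ≤ ρ := by positivity
  have hN : 2 * n ≤ q * q := h1.le
  -- size of ρ
  have hqρ : (q : ℝ) * ρ ≤ 2 * u := by
    have ha1 : (q : ℝ) / 4 ≤ a + 1 := by
      have h3 : 2 * n < (a + 1) * q := by
        have e := Nat.div_add_mod (2 * n) q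
        have f := Nat.mod_lt (2 * n) hqpos
        rw [ha]; nlinarith
      have h3' : (2 : ℝ) * n < (a + 1) * q := by exact_mod_cast h3
      have h2' : (q : ℝ) * q ≤ 8 * n := by exact_mod_cast h2
      have hq' : (0 : ℝ) < q := by exact_mod_cast hqpos
      have : (q : ℝ) * q ≤ 4 * (a + 1) * q := by linarith
      have := le_of_mul_le_mul_right this hq'
      linarith
    have hq' : (0 : ℝ) < q := by exact_mod_cast hqpos
    have h4 : Real.sqrt q / 2 ≤ Real.sqrt (a + 1) := by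
      rw [div_le_iff₀ (by norm_num : (0 : ℝ) < 2)]
      have : Real.sqrt q ≤ Real.sqrt ((a + 1) * 4) := Real.sqrt_le_sqrt (by linarith)
      rw [Real.sqrt_mul (by positivity)] at this
      have h5 : Real.sqrt 4 = 2 := by
        rw [show (4 : ℝ) = 2 ^ 2 by norm_num, Real.sqrt_sq (by norm_num)]
      rwa [h5] at this
    have hsq : 0 < Real.sqrt q := Real.sqrt_pos.2 hq'
    have h6 : ρ ≤ 2 / Real.sqrt q := by
      rw [hρdef]
      have : 2 / Real.sqrt q = 1 / (Real.sqrt q / 2) := by field_simp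
      rw [this]
      exact one_div_le_one_div_of_le (by positivity) h4
    have h7 : Real.sqrt q ≤ u := by
      rw [Real.sqrt_le_left (by positivity)]
      exact_mod_cast hu2.le
    calc (q : ℝ) * ρ ≤ q * (2 / Real.sqrt q) := mul_le_mul_of_nonneg_left h6 hq'.le
      _ = 2 * Real.sqrt q := by
          have : (q : ℝ) = Real.sqrt q * Real.sqrt q := (Real.mul_self_sqrt hq'.le).symm
          field_simp
          rw [sq]
          exact this
      _ ≤ 2 * u := by linarith
  have hnum := num_le q K u ρ hρ0 (by omega) hK hqρ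
  -- the bad sets
  by_contra hcon
  push Not at hcon
  have hsub : powersetCard n (univ : Finset (Fin (2 * n))) ⊆
      (univ : Finset (ZMod q)).biUnion fun m => (range (2 * n + 1)).biUnion fun t =>
        ((univ : Finset (Finset (Fin (2 * n)))).filter fun S =>
          K ≤ (univ.filter fun b : ZMod q => (Ln q (2 * n) m b ∩ S).card = t).card) := by
    intro S hS
    obtain ⟨m, t, hmt⟩ := hcon S (mem_powersetCard.1 hS).2
    rw [mem_biUnion]
    refine ⟨m, mem_univ _, ?_⟩
    rw [mem_biUnion]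
    refine ⟨t, ?_, ?_⟩
    · -- some line has `t` points
      have hKpos : 0 < K := by omega
      obtain ⟨b, hb⟩ := card_pos.1 (lt_of_lt_of_le hKpos hmt)
      rw [mem_filter] at hb
      rw [mem_range, ← hb.2]
      have h3 : (Ln q (2 * n) m b ∩ S).card ≤ (univ : Finset (Fin (2 * n))).card :=
        card_le_card (subset_univ _)
      rw [card_univ, Fintype.card_fin] at h3
      omega
    · rw [mem_filter]; exact ⟨mem_univ _, hmt⟩
  have hcard := card_le_card hsub
  rw [card_powersetCard, card_univ, Fintype.card_fin] at hcard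
  have hb : ∀ m : ZMod q, ∀ t : ℕ, (((univ : Finset (Finset (Fin (2 * n)))).filter fun S =>
      K ≤ (univ.filter fun b : ZMod q => (Ln q (2 * n) m b ∩ S).card = t).card).card : ℝ) ≤
      (1 / 2) ^ K * 4 ^ n := by
    intro m t
    have h3 := bad_le (fun b : ZMod q => Ln q (2 * n) m b) t K ρ hρ0
      (fun b b' hne => Ln_disjoint m hne) (fun b => by
        refine (choose_le _ _).trans (mul_le_mul_of_nonneg_right ?_ (by positivity))
        rw [hρdef]
        apply one_div_le_one_div_of_le (by positivity)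
        apply Real.sqrt_le_sqrt
        have : a ≤ (Ln q (2 * n) m b).card := le_card_Ln m b
        have : (a : ℝ) ≤ ((Ln q (2 * n) m b).card : ℝ) := by exact_mod_cast this
        linarith)
    refine h3.trans ?_
    rw [ZMod.card, Fintype.card_fin, ← mul_assoc]
    have e : (2 : ℝ) ^ (2 * n) = 4 ^ n := by rw [pow_mul]; norm_num
    rw [e]
    exact mul_le_mul_of_nonneg_right hnum (by positivity)
  have hreal : ((2 * n).choose n : ℝ) ≤ q * ((2 * n + 1) * ((1 / 2) ^ K * 4 ^ n)) := by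
    have h3 : ((2 * n).choose n : ℝ) ≤ ∑ m : ZMod q, ∑ t ∈ range (2 * n + 1),
        (((univ : Finset (Finset (Fin (2 * n)))).filter fun S =>
          K ≤ (univ.filter fun b : ZMod q => (Ln q (2 * n) m b ∩ S).card = t).card).card : ℝ) := by
      have h4 := hcard.trans (card_biUnion_le.trans (sum_le_sum fun m _ => card_biUnion_le))
      exact_mod_cast h4
    refine h3.trans ?_
    have h5 : ∀ m : ZMod q, ∑ t ∈ range (2 * n + 1),
        (((univ : Finset (Finset (Fin (2 * n)))).filter fun S =>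
          K ≤ (univ.filter fun b : ZMod q => (Ln q (2 * n) m b ∩ S).card = t).card).card : ℝ) ≤
        (2 * n + 1) * ((1 / 2) ^ K * 4 ^ n) := by
      intro m
      refine (sum_le_card_nsmul _ _ _ fun t _ => hb m t).trans (le_of_eq ?_)
      rw [card_range, nsmul_eq_mul]; push_cast; ring
    refine (sum_le_card_nsmul _ _ _ fun m _ => h5 m).trans (le_of_eq ?_)
    rw [card_univ, ZMod.card, nsmul_eq_mul]
  -- contradiction
  have hcb : (4 : ℝ) ^ n < n * ((2 * n).choose n : ℝ) := by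
    have := Nat.four_pow_lt_mul_centralBinom n hn
    exact_mod_cast this
  have hbig : ((q : ℝ) * (2 * n + 1) * n) * (1 / 2) ^ K ≤ 1 := by
    have hq4 : q ≤ u ^ 2 := hu2.le
    have h3 : 2 * n + 1 ≤ u ^ 4 := by
      calc 2 * n + 1 ≤ q * q := h1
        _ ≤ u ^ 2 * u ^ 2 := Nat.mul_le_mul hq4 hq4
        _ = u ^ 4 := by ring
    have h4 : n ≤ u ^ 4 := by omega
    have h5 : q * (2 * n + 1) * n ≤ u ^ 10 := by
      calc q * (2 * n + 1) * n ≤ u ^ 2 * u ^ 4 * u ^ 4 :=
            Nat.mul_le_mul (Nat.mul_le_mul hq4 h3) h4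
        _ = u ^ 10 := by ring
    have h6 : u ^ 10 ≤ 2 ^ K := by
      calc u ^ 10 ≤ (2 ^ u) ^ 10 := Nat.pow_le_pow_left Nat.lt_two_pow_self.le 10
        _ = 2 ^ (u * 10) := by rw [← pow_mul]
        _ ≤ 2 ^ K := Nat.pow_le_pow_right (by norm_num) (by omega)
    have h7 : ((q : ℝ) * (2 * n + 1) * n) ≤ 2 ^ K := by exact_mod_cast h5.trans h6
    calc ((q : ℝ) * (2 * n + 1) * n) * (1 / 2) ^ K ≤ 2 ^ K * (1 / 2) ^ K :=
          mul_le_mul_of_nonneg_right h7 (by positivity)
      _ = 1 := by rw [← mul_pow]; norm_num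
  have hnpos : (0 : ℝ) < n := by exact_mod_cast (by omega : 0 < n)
  have h8 : (n : ℝ) * ((2 * n).choose n : ℝ) ≤ 4 ^ n := by
    calc (n : ℝ) * ((2 * n).choose n : ℝ) ≤ n * (q * ((2 * n + 1) * ((1 / 2) ^ K * 4 ^ n))) :=
          mul_le_mul_of_nonneg_left hreal hnpos.le
      _ = (((q : ℝ) * (2 * n + 1) * n) * (1 / 2) ^ K) * 4 ^ n := by ring
      _ ≤ 1 * 4 ^ n := mul_le_mul_of_nonneg_right hbig (by positivity)
      _ = 4 ^ n := one_mul _
  linarith

end Pool.Agent.H726.BD
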