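import Pool.Agent.H726.BD.Count

set_option autoImplicit false

/-!
# Lines of the affine plane over a prime field, restricted to the first `N` points
-/

namespace Pool.Agent.H726.BD

open Finset

variable {q : ℕ} {N : ℕ}

/-- first coordinate -/
def cx (q : ℕ) {N : ℕ} (v : Fin N) : ZMod q := ((v.1 / q : ℕ) : ZMod q)
/-- second coordinate -/
def cy (q : ℕ) {N : ℕ} (v : Fin N) : ZMod q := ((v.1 % q : ℕ) : ZMod q)

/-- the line `y = m x + b` -/
def Ln (q N : ℕ) (m b : ZMod q) : Finset (Fin N) := univ.filter fun v => cy q v = m * cx q v + b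
/-- the vertical line -/
def Vt (q N : ℕ) (c : ZMod q) : Finset (Fin N) := univ.filter fun v => cx q v = c

lemma mem_Ln {m b : ZMod q} {v : Fin N} : v ∈ Ln q N m b ↔ cy q v = m * cx q v + b := by
  simp [Ln]

lemma mem_Vt {c : ZMod q} {v : Fin N} : v ∈ Vt q N c ↔ cx q v = c := by
  simp [Vt]

lemma ext_pt (hN : N ≤ q * q) {v w : Fin N} (h1 : cx q v = cx q w) (h2 : cy q v = cy q w) :
    v = w := by
  have hq : 0 < q := by
    rcases Nat.eq_zero_or_pos q with h | h
    · subst h; have := v.2; omega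
    · exact h
  have hv : v.1 / q < q := Nat.div_lt_of_lt_mul (lt_of_lt_of_le v.2 hN)
  have hw : w.1 / q < q := Nat.div_lt_of_lt_mul (lt_of_lt_of_le w.2 hN)
  have e1 : v.1 / q = w.1 / q := by
    have := (ZMod.natCast_eq_natCast_iff' _ _ _).1 h1
    rwa [Nat.mod_eq_of_lt hv, Nat.mod_eq_of_lt hw] at this
  have e2 : v.1 % q = w.1 % q := by
    have := (ZMod.natCast_eq_natCast_iff' _ _ _).1 h2
    rwa [Nat.mod_mod, Nat.mod_mod] at this
  apply Fin.ext
  rw [← Nat.div_add_mod v.1 q, ← Nat.div_add_mod w.1 q, e1, e2]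

lemma Ln_disjoint (m : ZMod q) {b b' : ZMod q} (h : b ≠ b') :
    Disjoint (Ln q N m b) (Ln q N m b') := by
  rw [disjoint_left]
  intro v h1 h2
  rw [mem_Ln] at h1 h2
  exact h (add_left_cancel (h1.symm.trans h2))

variable [hp : Fact q.Prime]

/-- two different points are on exactly one line -/
lemma exists_line (hN : N ≤ q * q) {v w : Fin N} (hvw : v ≠ w) :
    (cx q v = cx q w ∧ ∀ m b, ¬ (v ∈ Ln q N m b ∧ w ∈ Ln q N m b)) ∨
    (cx q v ≠ cx q w ∧ ∃ m b, (v ∈ Ln q N m b ∧ w ∈ Ln q N m b) ∧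
      ∀ m' b', (v ∈ Ln q N m' b' ∧ w ∈ Ln q N m' b') → m' = m ∧ b' = b) := by
  by_cases hx : cx q v = cx q w
  · left
    refine ⟨hx, ?_⟩
    rintro m b ⟨h1, h2⟩
    rw [mem_Ln] at h1 h2
    exact hvw (ext_pt hN hx (by rw [h1, h2, hx]))
  · right
    refine ⟨hx, ?_⟩
    have hd : cx q v - cx q w ≠ 0 := sub_ne_zero.2 hx
    refine ⟨(cy q v - cy q w) / (cx q v - cx q w),
      cy q v - (cy q v - cy q w) / (cx q v - cx q w) * cx q v, ⟨?_, ?_⟩, ?_⟩
    · rw [mem_Ln]; ring
    · rw [mem_Ln]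
      field_simp
      ring
    · rintro m' b' ⟨h1, h2⟩
      rw [mem_Ln] at h1 h2
      have hm : m' = (cy q v - cy q w) / (cx q v - cx q w) := by
        rw [eq_div_iff hd, h1, h2]; ring
      refine ⟨hm, ?_⟩
      rw [← hm, h1]; ring

lemma card_Ln_le (hN : N ≤ q * q) (m b : ZMod q) : (Ln q N m b).card ≤ q := by
  have h : ((Ln q N m b).image (cx q)).card = (Ln q N m b).card := by
    apply card_image_of_injOn
    intro v hv w hw h
    rw [mem_coe, mem_Ln] at hv hw
    exact ext_pt hN h (by rw [hv, hw, h])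
  rw [← h]
  refine (card_le_univ _).trans (le_of_eq (ZMod.card q))

lemma card_Vt_le (hN : N ≤ q * q) (c : ZMod q) : (Vt q N c).card ≤ q := by
  have h : ((Vt q N c).image (cy q)).card = (Vt q N c).card := by
    apply card_image_of_injOn
    intro v hv w hw h
    rw [mem_coe, mem_Vt] at hv hw
    exact ext_pt hN (by rw [hv, hw]) h
  rw [← h]
  refine (card_le_univ _).trans (le_of_eq (ZMod.card q))

lemma le_card_Ln (m b : ZMod q) : N / q ≤ (Ln q N m b).card := by
  have hq : 0 < q := hp.out.pos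
  have hlt : ∀ x ∈ range (N / q), x * q + (m * (x : ZMod q) + b).val < N := by
    intro x hx
    have hx' := mem_range.1 hx
    have h1 : (m * (x : ZMod q) + b).val < q := ZMod.val_lt _
    have h2 : (x + 1) * q ≤ N / q * q := Nat.mul_le_mul_right _ hx'
    have h3 : N / q * q ≤ N := Nat.div_mul_le_self _ _
    nlinarith
  have h : (range (N / q)).card ≤ (Ln q N m b).card := by
    refine card_le_card_of_surjOn (fun v : Fin N => v.1 / q) ?_
    intro x hx
    rw [mem_coe] at hx
    have h1 : (m * (x : ZMod q) + b).val < q := ZMod.val_lt _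
    refine ⟨⟨x * q + (m * (x : ZMod q) + b).val, hlt x hx⟩, ?_, ?_⟩
    · rw [mem_coe, mem_Ln]
      have e1 : (x * q + (m * (x : ZMod q) + b).val) / q = x := by
        rw [Nat.add_comm, Nat.add_mul_div_right _ _ hq, Nat.div_eq_of_lt h1, zero_add]
      have e2 : (x * q + (m * (x : ZMod q) + b).val) % q = (m * (x : ZMod q) + b).val := by
        rw [Nat.add_comm, Nat.add_mul_mod_self_right, Nat.mod_eq_of_lt h1]
      unfold cx cy
      rw [e1, e2, ZMod.natCast_val, ZMod.cast_id]
    · change (x * q + (m * (x : ZMod q) + b).val) / q = x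
      rw [Nat.add_comm, Nat.add_mul_div_right _ _ hq, Nat.div_eq_of_lt h1, zero_add]
  rwa [card_range] at h

end Pool.Agent.H726.BD
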