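import Mathlib

set_option autoImplicit false

/-!
# Traces of block designs have many blocks of the same size
-/

namespace Pool.Agent.H726.BD

open Finset

section

variable {v K : ℕ} {D : Finset (Finset (Fin v))}

/-- indicator -/
noncomputable def ic {v : ℕ} (x : Fin v) (B : Finset (Fin v)) : ℝ := if x ∈ B then 1 else 0

lemma ic_sum {v : ℕ} (S B : Finset (Fin v)) : ∑ x ∈ S, ic x B = ((B ∩ S).card : ℝ) := by
  unfold ic
  rw [Finset.sum_boole]
  congr 2
  ext x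
  rw [mem_filter, mem_inter]
  exact and_comm

lemma ic_sq {v : ℕ} (x : Fin v) (B : Finset (Fin v)) : ic x B * ic x B = ic x B := by
  unfold ic
  split_ifs <;> simp

lemma ic_pair (hp : ∀ x y : Fin v, x ≠ y → ∃! B : Finset (Fin v), B ∈ D ∧ x ∈ B ∧ y ∈ B)
    (x y : Fin v) (h : x ≠ y) : ∑ B ∈ D, ic x B * ic y B = 1 := by
  obtain ⟨B, ⟨hB, h1, h2⟩, hu⟩ := hp x y h
  rw [Finset.sum_eq_single B]
  · unfold ic
    rw [if_pos h1, if_pos h2, mul_one]
  · intro C hC hne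
    unfold ic
    by_cases h3 : x ∈ C
    · rw [if_neg (fun h4 => hne (hu C ⟨hC, h3, h4⟩)), mul_zero]
    · rw [if_neg h3, zero_mul]
  · intro h3
    exact absurd hB h3

/-- number of blocks through a point -/
lemma deg_point (hK : ∀ B ∈ D, B.card = K)
    (hp : ∀ x y : Fin v, x ≠ y → ∃! B : Finset (Fin v), B ∈ D ∧ x ∈ B ∧ y ∈ B) (x : Fin v) :
    (∑ B ∈ D, ic x B) * ((K : ℝ) - 1) = (v : ℝ) - 1 := by
  have h1 : ∑ y : Fin v, ∑ B ∈ D, ic x B * ic y B = (∑ B ∈ D, ic x B) * K := by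
    rw [Finset.sum_comm, Finset.sum_mul]
    refine Finset.sum_congr rfl fun B hB => ?_
    rw [← Finset.mul_sum, ic_sum, inter_univ, hK B hB]
  have h2 : ∑ y : Fin v, ∑ B ∈ D, ic x B * ic y B = ∑ B ∈ D, ic x B + ((v : ℝ) - 1) := by
    rw [← Finset.add_sum_erase univ _ (mem_univ x)]
    congr 1
    · exact Finset.sum_congr rfl fun B _ => ic_sq x B
    · rw [Finset.sum_congr rfl fun y hy => ic_pair hp x y (Ne.symm (ne_of_mem_erase hy)),
        Finset.sum_const, card_erase_of_mem (mem_univ x), card_univ, Fintype.card_fin,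
        nsmul_eq_mul, mul_one]
      have hv : 1 ≤ v := Nat.one_le_of_lt x.2
      rw [Nat.cast_sub hv, Nat.cast_one]
  linarith

theorem traces (hK2 : 2 ≤ K) (hKv : K < v) (hK : ∀ B ∈ D, B.card = K)
    (hp : ∀ x y : Fin v, x ≠ y → ∃! B : Finset (Fin v), B ∈ D ∧ x ∈ B ∧ y ∈ B)
    (S : Finset (Fin v)) (hS : 32 * (v - 1) ≤ S.card * (K - 1)) :
    ∃ t : ℕ, 2 ≤ t ∧ (S.card : ℝ) ^ (3 / 4 : ℝ) ≤
      11 * ((D.filter fun B => (B ∩ S).card = t).card : ℝ) := by
  classical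
  have hK1 : (0 : ℝ) < (K : ℝ) - 1 := by
    have : (2 : ℝ) ≤ K := by exact_mod_cast hK2
    linarith
  have hv1 : (1 : ℝ) ≤ (v : ℝ) - 1 := by
    have : (2 : ℝ) ≤ v := by exact_mod_cast (by omega : 2 ≤ v)
    linarith
  have hv0 : (0 : ℝ) < v := by linarith
  obtain ⟨r, hr⟩ : ∃ r : ℝ, r = ((v : ℝ) - 1) / ((K : ℝ) - 1) := ⟨_, rfl⟩
  have hrK : r * ((K : ℝ) - 1) = (v : ℝ) - 1 := by rw [hr, div_mul_cancel₀ _ hK1.ne']
  have hr0 : 0 < r := by rw [hr]; exact div_pos (by linarith) hK1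
  have hdeg : ∀ x : Fin v, ∑ B ∈ D, ic x B = r := by
    intro x
    rw [hr, eq_div_iff hK1.ne']
    exact deg_point hK hp x
  obtain ⟨n, hn⟩ : ∃ n : ℝ, n = (S.card : ℝ) := ⟨_, rfl⟩
  obtain ⟨b, hb⟩ : ∃ b : ℝ, b = (D.card : ℝ) := ⟨_, rfl⟩
  have hnv : n ≤ v := by
    rw [hn]
    have := Finset.card_le_univ S
    rw [Fintype.card_fin] at this
    exact_mod_cast this
  have hn32 : 32 * r ≤ n := by
    have h1 : 32 * ((v : ℝ) - 1) ≤ n * ((K : ℝ) - 1) := by
      rw [hn]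
      have h2 : ((32 * (v - 1) : ℕ) : ℝ) ≤ ((S.card * (K - 1) : ℕ) : ℝ) := by exact_mod_cast hS
      rw [Nat.cast_mul, Nat.cast_mul, Nat.cast_sub (by omega), Nat.cast_sub (by omega)] at h2
      push_cast at h2
      exact h2
    rw [← hrK] at h1
    have h3 : (32 * r) * ((K : ℝ) - 1) ≤ n * ((K : ℝ) - 1) := by linarith
    exact le_of_mul_le_mul_right h3 hK1
  have hn0 : 0 < n := by linarith
  -- `v r = b K`
  have hvr : (v : ℝ) * r = b * K := by
    have h1 : ∑ x : Fin v, ∑ B ∈ D, ic x B = (v : ℝ) * r := by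
      simp only [hdeg]
      rw [Finset.sum_const, card_univ, Fintype.card_fin, nsmul_eq_mul]
    have h2 : ∑ x : Fin v, ∑ B ∈ D, ic x B = b * K := by
      rw [Finset.sum_comm]
      have h3 : ∀ B ∈ D, ∑ x : Fin v, ic x B = (K : ℝ) := by
        intro B hB
        rw [ic_sum, inter_univ, hK B hB]
      rw [Finset.sum_congr rfl h3, Finset.sum_const, nsmul_eq_mul, hb]
    rw [← h1, h2]
  have hK0 : (0 : ℝ) < K := by linarith
  have hb0 : 0 < b := by
    by_contra h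
    have h1 : b * K ≤ 0 := mul_nonpos_of_nonpos_of_nonneg (not_lt.1 h) hK0.le
    have h2 : 0 < (v : ℝ) * r := mul_pos hv0 hr0
    linarith
  -- `K ≤ r`
  have hKr : (K : ℝ) ≤ r := by
    have hDne : D.Nonempty := by
      rw [← card_pos]
      have : (0 : ℝ) < (D.card : ℝ) := by rw [← hb]; exact hb0
      exact_mod_cast this
    obtain ⟨B, hB⟩ := hDne
    obtain ⟨x, hx⟩ : ∃ x : Fin v, x ∉ B := by
      by_contra h
      push Not at h
      have h1 : B = univ := eq_univ_of_forall h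
      have h2 := hK B hB
      rw [h1, card_univ, Fintype.card_fin] at h2
      omega
    have h1 : ∑ y ∈ B, ∑ C ∈ D, ic x C * ic y C = (K : ℝ) := by
      rw [Finset.sum_congr rfl fun y hy => ic_pair hp x y (fun h => hx (h ▸ hy)),
        Finset.sum_const, nsmul_eq_mul, mul_one, hK B hB]
    rw [← h1, ← hdeg x, Finset.sum_comm]
    refine Finset.sum_le_sum fun C hC => ?_
    rw [← Finset.mul_sum, ic_sum]
    by_cases hxC : x ∈ C
    · have h3 : (C ∩ B).card ≤ 1 := by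
        rw [card_le_one]
        intro y hy z hz
        rw [mem_inter] at hy hz
        by_contra hyz
        have h4 := (hp y z hyz).unique ⟨hC, hy.1, hz.1⟩ ⟨hB, hy.2, hz.2⟩
        exact hx (h4 ▸ hxC)
      have h5 : ((C ∩ B).card : ℝ) ≤ 1 := by exact_mod_cast h3
      have h6 : 0 ≤ ic x C := by unfold ic; split_ifs <;> simp
      calc ic x C * ((C ∩ B).card : ℝ) ≤ ic x C * 1 := mul_le_mul_of_nonneg_left h5 h6
        _ = ic x C := mul_one _
    · unfold ic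
      rw [if_neg hxC, zero_mul]
  have hr1 : 1 ≤ r := by
    have : (2 : ℝ) ≤ K := by exact_mod_cast hK2
    linarith
  have hbv : (v : ℝ) ≤ b := by
    have h1 : (v : ℝ) * K ≤ b * K := by
      rw [← hvr]
      exact mul_le_mul_of_nonneg_left hKr hv0.le
    exact le_of_mul_le_mul_right h1 hK0
  have hbn : n ≤ b := hnv.trans hbv
  have hbid : b * ((v : ℝ) - 1 + r) = v * r ^ 2 := by
    have h1 : (v : ℝ) - 1 + r = r * K := by
      have : r * (K : ℝ) = r * ((K : ℝ) - 1) + r := by ring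
      rw [this, hrK]
    rw [h1]
    calc b * (r * K) = (b * K) * r := by ring
      _ = v * r ^ 2 := by rw [← hvr]; ring
  have hbr : b ≤ r ^ 2 := by
    have h1 : b * v ≤ r ^ 2 * v := by
      calc b * (v : ℝ) ≤ b * ((v : ℝ) - 1 + r) := mul_le_mul_of_nonneg_left (by linarith) hb0.le
        _ = r ^ 2 * v := by rw [hbid]; ring
    exact le_of_mul_le_mul_right h1 hv0
  have hrv : r ≤ (v : ℝ) - 1 := by
    have h2 : (1 : ℝ) ≤ (K : ℝ) - 1 := by
      have : (2 : ℝ) ≤ K := by exact_mod_cast hK2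
      linarith
    calc r = r * 1 := (mul_one r).symm
      _ ≤ r * ((K : ℝ) - 1) := mul_le_mul_of_nonneg_left h2 hr0.le
      _ = (v : ℝ) - 1 := hrK
  have hb2 : r ^ 2 ≤ 2 * b := by
    have h1 : r ^ 2 * v ≤ (2 * b) * v := by
      calc r ^ 2 * (v : ℝ) = b * ((v : ℝ) - 1 + r) := by rw [hbid]; ring
        _ ≤ b * (2 * v) := mul_le_mul_of_nonneg_left (by linarith) hb0.le
        _ = (2 * b) * v := by ring
    exact le_of_mul_le_mul_right h1 hv0
  -- mean and variance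
  obtain ⟨μ, hμ⟩ : ∃ μ : ℝ, μ = n * r / b := ⟨_, rfl⟩
  have hμb : μ * b = n * r := by rw [hμ, div_mul_cancel₀ _ hb0.ne']
  have hμ32 : 32 ≤ μ := by
    have h1 : 32 * b ≤ μ * b := by
      rw [hμb]
      calc 32 * b ≤ 32 * r ^ 2 := by linarith
        _ = (32 * r) * r := by ring
        _ ≤ n * r := mul_le_mul_of_nonneg_right hn32 hr0.le
    exact le_of_mul_le_mul_right h1 hb0
  have hs1 : ∑ B ∈ D, ((B ∩ S).card : ℝ) = n * r := by
    simp only [← ic_sum]
    rw [Finset.sum_comm]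
    simp only [hdeg]
    rw [Finset.sum_const, nsmul_eq_mul, hn]
  have hs2 : ∑ B ∈ D, ((B ∩ S).card : ℝ) ^ 2 = n * r + n * (n - 1) := by
    have h1 : ∀ B ∈ D, ((B ∩ S).card : ℝ) ^ 2 = ∑ x ∈ S, ∑ y ∈ S, ic x B * ic y B := by
      intro B _
      rw [← ic_sum, sq, Finset.sum_mul_sum]
    rw [Finset.sum_congr rfl h1, Finset.sum_comm]
    have h2 : ∀ x ∈ S, ∑ B ∈ D, ∑ y ∈ S, ic x B * ic y B = r + (n - 1) := by
      intro x hx
      rw [Finset.sum_comm, ← Finset.add_sum_erase S _ hx]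
      congr 1
      · rw [← hdeg x]
        exact Finset.sum_congr rfl fun B _ => ic_sq x B
      · rw [Finset.sum_congr rfl fun y hy => ic_pair hp x y (Ne.symm (ne_of_mem_erase hy)),
          Finset.sum_const, card_erase_of_mem hx, nsmul_eq_mul, mul_one,
          Nat.cast_sub (card_pos.2 ⟨x, hx⟩), Nat.cast_one, hn]
    rw [Finset.sum_congr rfl h2, Finset.sum_const, nsmul_eq_mul, ← hn]
    ring
  have hvar : ∑ B ∈ D, (((B ∩ S).card : ℝ) - μ) ^ 2 ≤ n * r := by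
    have h1 : ∑ B ∈ D, (((B ∩ S).card : ℝ) - μ) ^ 2 =
        ∑ B ∈ D, ((B ∩ S).card : ℝ) ^ 2 - 2 * μ * ∑ B ∈ D, ((B ∩ S).card : ℝ) + b * μ ^ 2 := by
      rw [Finset.mul_sum, ← Finset.sum_sub_distrib]
      have h2 : b * μ ^ 2 = ∑ _B ∈ D, μ ^ 2 := by
        rw [Finset.sum_const, nsmul_eq_mul, hb]
      rw [h2, ← Finset.sum_add_distrib]
      refine Finset.sum_congr rfl fun B _ => ?_
      ring
    rw [h1, hs1, hs2, ← hμb]
    -- remaining: `n (n - 1) ≤ b μ²`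
    have h3 : n ^ 2 ≤ b * μ ^ 2 := by
      have h4 : b * n ^ 2 ≤ b * (b * μ ^ 2) := by
        have h5 : b * (b * μ ^ 2) = n ^ 2 * r ^ 2 := by
          calc b * (b * μ ^ 2) = (μ * b) ^ 2 := by ring
            _ = n ^ 2 * r ^ 2 := by rw [hμb]; ring
        rw [h5]
        calc b * n ^ 2 ≤ r ^ 2 * n ^ 2 := mul_le_mul_of_nonneg_right hbr (by positivity)
          _ = n ^ 2 * r ^ 2 := by ring
      exact le_of_mul_le_mul_left h4 hb0
    have h6 : 2 * μ * (μ * b) = 2 * (b * μ ^ 2) := by ring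
    rw [h6]
    nlinarith
  obtain ⟨w, hw⟩ : ∃ w : ℝ, w = Real.sqrt (2 * μ) := ⟨_, rfl⟩
  have hw0 : 0 ≤ w := by rw [hw]; exact Real.sqrt_nonneg _
  have hw2 : w ^ 2 = 2 * μ := by rw [hw]; exact Real.sq_sqrt (by linarith)
  have hw8 : 8 ≤ w := by
    have h1 : (8 : ℝ) ^ 2 ≤ w ^ 2 := by
      rw [hw2]
      linarith
    exact le_of_sq_le_sq h1 hw0
  have hwμ : w ≤ μ / 4 := by
    have h1 : w ^ 2 ≤ (μ / 4) ^ 2 := by
      rw [hw2]
      nlinarith
    exact le_of_sq_le_sq h1 (by linarith)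
  have hlow : 2 ≤ μ - w := by linarith
  -- Chebyshev
  have hcheb : ((D.filter fun B => w < |((B ∩ S).card : ℝ) - μ|).card : ℝ) ≤ b / 2 := by
    have h1 : ((D.filter fun B => w < |((B ∩ S).card : ℝ) - μ|).card : ℝ) * w ^ 2 ≤ n * r := by
      refine le_trans ?_ hvar
      rw [← nsmul_eq_mul, ← Finset.sum_const]
      refine le_trans (Finset.sum_le_sum (g := fun B => (((B ∩ S).card : ℝ) - μ) ^ 2) ?_) ?_
      · intro B hB
        rw [mem_filter] at hB
        rw [← sq_abs (((B ∩ S).card : ℝ) - μ)]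
        exact pow_le_pow_left₀ hw0 hB.2.le 2
      · exact Finset.sum_le_sum_of_subset_of_nonneg (filter_subset _ _)
          fun B _ _ => sq_nonneg _
    have h2 : ((D.filter fun B => w < |((B ∩ S).card : ℝ) - μ|).card : ℝ) * w ^ 2 ≤
        b / 2 * w ^ 2 := by
      refine h1.trans (le_of_eq ?_)
      rw [hw2, ← hμb]
      ring
    exact le_of_mul_le_mul_right h2 (by positivity)
  have hgood : b / 2 ≤ ((D.filter fun B => |((B ∩ S).card : ℝ) - μ| ≤ w).card : ℝ) := by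
    have h1 : (D.filter fun B => |((B ∩ S).card : ℝ) - μ| ≤ w).card +
        (D.filter fun B => w < |((B ∩ S).card : ℝ) - μ|).card = D.card := by
      have h2 := Finset.card_filter_add_card_filter_not (s := D)
        (fun B => |((B ∩ S).card : ℝ) - μ| ≤ w)
      simp only [not_le] at h2
      exact h2
    have h3 : ((D.filter fun B => |((B ∩ S).card : ℝ) - μ| ≤ w).card : ℝ) +
        ((D.filter fun B => w < |((B ∩ S).card : ℝ) - μ|).card : ℝ) = b := by
      rw [hb]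
      exact_mod_cast h1
    linarith
  by_contra hcon
  push Not at hcon
  obtain ⟨X, hX⟩ : ∃ X : ℝ, X = n ^ (3 / 4 : ℝ) := ⟨_, rfl⟩
  have hX0 : 0 ≤ X := by rw [hX]; positivity
  have hX4 : X ^ 4 = n ^ 3 := by
    rw [hX, ← Real.rpow_natCast, ← Real.rpow_mul hn0.le]
    norm_num
  -- pigeonhole
  have hcard : ((D.filter fun B => |((B ∩ S).card : ℝ) - μ| ≤ w).card : ℝ) ≤
      (2 * w + 1) * (X / 11) := by
    have h1 : (D.filter fun B => |((B ∩ S).card : ℝ) - μ| ≤ w) ⊆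
        (Finset.Icc ⌈μ - w⌉₊ ⌊μ + w⌋₊).biUnion fun t => D.filter fun B => (B ∩ S).card = t := by
      intro B hB
      rw [mem_filter] at hB
      have h2 := abs_le.1 hB.2
      rw [mem_biUnion]
      refine ⟨(B ∩ S).card, ?_, by rw [mem_filter]; exact ⟨hB.1, rfl⟩⟩
      rw [mem_Icc]
      exact ⟨Nat.ceil_le.2 (by linarith), Nat.le_floor (by linarith)⟩
    have h2 : ((D.filter fun B => |((B ∩ S).card : ℝ) - μ| ≤ w).card : ℝ) ≤
        ∑ t ∈ Finset.Icc ⌈μ - w⌉₊ ⌊μ + w⌋₊, ((D.filter fun B => (B ∩ S).card = t).card : ℝ) := by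
      exact_mod_cast (card_le_card h1).trans card_biUnion_le
    refine h2.trans ?_
    have h3 : ∀ t ∈ Finset.Icc ⌈μ - w⌉₊ ⌊μ + w⌋₊,
        ((D.filter fun B => (B ∩ S).card = t).card : ℝ) ≤ X / 11 := by
      intro t ht
      rw [mem_Icc] at ht
      have h4 : 2 ≤ t := by
        have h5 : (2 : ℝ) ≤ t := hlow.trans ((Nat.le_ceil _).trans (by exact_mod_cast ht.1))
        exact_mod_cast h5
      have h6 := hcon t h4
      rw [← hn, ← hX] at h6
      linarith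
    refine (Finset.sum_le_sum h3).trans ?_
    rw [Finset.sum_const, nsmul_eq_mul]
    refine mul_le_mul_of_nonneg_right ?_ (by positivity)
    rw [Nat.card_Icc]
    rcases le_total ⌈μ - w⌉₊ (⌊μ + w⌋₊ + 1) with h | h
    · rw [Nat.cast_sub h]
      have h5 := Nat.le_ceil (μ - w)
      have h6 := Nat.floor_le (a := μ + w) (by linarith)
      push_cast
      linarith
    · rw [Nat.sub_eq_zero_of_le h, Nat.cast_zero]
      linarith
  have h10 : (2 * w + 1) * (X / 11) ≤ 3 * w * (X / 11) :=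
    mul_le_mul_of_nonneg_right (by linarith) (by positivity)
  have h11 : b ≤ 6 / 11 * (w * X) := by
    have : 3 * w * (X / 11) = 3 / 11 * (w * X) := by ring
    linarith
  have h12 : b ^ 4 ≤ (6 / 11 * (w * X)) ^ 4 := pow_le_pow_left₀ hb0.le h11 4
  have h13 : (6 / 11 * (w * X)) ^ 4 = (6 / 11) ^ 4 * 4 * (μ ^ 2 * n ^ 3) := by
    calc (6 / 11 * (w * X)) ^ 4 = (6 / 11) ^ 4 * ((w ^ 2) ^ 2 * X ^ 4) := by ring
      _ = (6 / 11) ^ 4 * 4 * (μ ^ 2 * n ^ 3) := by rw [hw2, hX4]; ring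
  have h14 : b ^ 6 ≤ (6 / 11) ^ 4 * 4 * (n ^ 5 * r ^ 2) := by
    calc b ^ 6 = b ^ 4 * b ^ 2 := by ring
      _ ≤ ((6 / 11) ^ 4 * 4 * (μ ^ 2 * n ^ 3)) * b ^ 2 := by
          rw [← h13]
          exact mul_le_mul_of_nonneg_right h12 (by positivity)
      _ = (6 / 11) ^ 4 * 4 * ((μ * b) ^ 2 * n ^ 3) := by ring
      _ = (6 / 11) ^ 4 * 4 * (n ^ 5 * r ^ 2) := by rw [hμb]; ring
  have h15 : n ^ 5 * r ^ 2 ≤ 2 * b ^ 6 := by
    calc n ^ 5 * r ^ 2 ≤ b ^ 5 * (2 * b) :=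
          mul_le_mul (pow_le_pow_left₀ hn0.le hbn 5) hb2 (by positivity) (by positivity)
      _ = 2 * b ^ 6 := by ring
  have h16 : (0 : ℝ) < b ^ 6 := by positivity
  have h17 : (6 / 11 : ℝ) ^ 4 * 4 * (n ^ 5 * r ^ 2) ≤ (6 / 11 : ℝ) ^ 4 * 4 * (2 * b ^ 6) :=
    mul_le_mul_of_nonneg_left h15 (by norm_num)
  have h18 : b ^ 6 ≤ (6 / 11 : ℝ) ^ 4 * 4 * (2 * b ^ 6) := h14.trans h17
  have h19 : (6 / 11 : ℝ) ^ 4 * 4 * (2 * b ^ 6) = (10368 / 14641 : ℝ) * b ^ 6 := by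
    norm_num
    ring
  rw [h19] at h18
  linarith

end

end Pool.Agent.H726.BD
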