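import Pool.Agent.H726.BD.Exist

set_option autoImplicit false

/-!
# Pairwise balanced designs with `O(n^(3/4))` blocks of each size
-/

namespace Pool.Agent.H726.BD

open Finset

/-- pairwise balanced design on `Fin n`, all blocks of size at least two -/
def IsPBD {n : ℕ} (H : Finset (Finset (Fin n))) : Prop :=
  (∀ A ∈ H, 2 ≤ A.card) ∧ ∀ x y : Fin n, x ≠ y → ∃! A : Finset (Fin n), A ∈ H ∧ x ∈ A ∧ y ∈ A

/-- trace of a set of points on the chosen points -/
def blk {n N : ℕ} (f : Fin n ↪o Fin N) (L : Finset (Fin N)) : Finset (Fin n) :=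
  univ.filter fun i => f i ∈ L

lemma mem_blk {n N : ℕ} {f : Fin n ↪o Fin N} {L : Finset (Fin N)} {i : Fin n} :
    i ∈ blk f L ↔ f i ∈ L := by simp [blk]

lemma card_blk {n N : ℕ} (S : Finset (Fin N)) (hS : S.card = n) (L : Finset (Fin N)) :
    (blk (S.orderEmbOfFin hS) L).card = (L ∩ S).card := by
  rw [← card_map (S.orderEmbOfFin hS).toEmbedding]
  congr 1
  ext v
  rw [mem_map, mem_inter]
  constructor
  · rintro ⟨i, hi, rfl⟩
    exact ⟨mem_blk.1 hi, orderEmbOfFin_mem S hS i⟩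
  · rintro ⟨h1, h2⟩
    have h3 : v ∈ Set.range (S.orderEmbOfFin hS) := by
      rw [range_orderEmbOfFin]; exact h2
    obtain ⟨i, rfl⟩ := h3
    exact ⟨i, mem_blk.2 h1, rfl⟩

theorem exists_prime (n : ℕ) (hn : 1 ≤ n) : ∃ q : ℕ, q.Prime ∧ 2 * n < q * q ∧ q * q ≤ 8 * n := by
  have hs : Nat.sqrt (2 * n) ≠ 0 := by
    intro h
    have := Nat.sqrt_eq_zero.1 h
    omega
  obtain ⟨q, hq, h1, h2⟩ := Nat.exists_prime_lt_and_le_two_mul _ hs
  refine ⟨q, hq, ?_, ?_⟩
  · have h3 : 2 * n < (Nat.sqrt (2 * n) + 1) * (Nat.sqrt (2 * n) + 1) := Nat.lt_succ_sqrt _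
    exact lt_of_lt_of_le h3 (Nat.mul_le_mul h1 h1)
  · have h3 : Nat.sqrt (2 * n) * Nat.sqrt (2 * n) ≤ 2 * n := Nat.sqrt_le _
    calc q * q ≤ (2 * Nat.sqrt (2 * n)) * (2 * Nat.sqrt (2 * n)) := Nat.mul_le_mul h2 h2
      _ = 4 * (Nat.sqrt (2 * n) * Nat.sqrt (2 * n)) := by ring
      _ ≤ 4 * (2 * n) := Nat.mul_le_mul_left _ h3
      _ = 8 * n := by ring

theorem upper (n : ℕ) (hn : 9 ≤ n) : ∃ H : Finset (Finset (Fin n)), IsPBD H ∧
    (∀ A ∈ H, A.card < n) ∧
    ∀ t : ℕ, ((H.filter fun A => A.card = t).card : ℝ) ≤ 105 * (n : ℝ) ^ (3 / 4 : ℝ) := by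
  obtain ⟨q, hq, h1, h2⟩ := exists_prime n (by omega)
  have : Fact q.Prime := ⟨hq⟩
  have hN : 2 * n ≤ q * q := h1.le
  obtain ⟨S, hS, hgood⟩ := good_set n q hq h1 h2 (by omega)
  set f := S.orderEmbOfFin hS with hf
  set H : Finset (Finset (Fin n)) :=
    (((univ : Finset (ZMod q)).biUnion fun m =>
        (univ : Finset (ZMod q)).image fun b => blk f (Ln q (2 * n) m b)) ∪
      (univ : Finset (ZMod q)).image fun c => blk f (Vt q (2 * n) c)).filter
        fun A => 2 ≤ A.card with hH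
  have hmemH : ∀ A, A ∈ H ↔ ((∃ m b, blk f (Ln q (2 * n) m b) = A) ∨
      ∃ c, blk f (Vt q (2 * n) c) = A) ∧ 2 ≤ A.card := by
    intro A
    simp [hH]
  refine ⟨H, ⟨fun A hA => ((hmemH A).1 hA).2, ?_⟩, ?_, ?_⟩
  · intro x y hxy
    have hfxy : f x ≠ f y := fun h => hxy (f.injective h)
    rcases exists_line hN hfxy with ⟨hx, hno⟩ | ⟨hx, m, b, hmb, huniq⟩
    · refine ⟨blk f (Vt q (2 * n) (cx q (f x))), ⟨?_, ?_, ?_⟩, ?_⟩
      · rw [hmemH]
        exact ⟨Or.inr ⟨_, rfl⟩, one_lt_card.2 ⟨x, mem_blk.2 (mem_Vt.2 rfl), y,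
          mem_blk.2 (mem_Vt.2 hx.symm), hxy⟩⟩
      · exact mem_blk.2 (mem_Vt.2 rfl)
      · exact mem_blk.2 (mem_Vt.2 hx.symm)
      · rintro A ⟨hA, hxA, hyA⟩
        rcases ((hmemH A).1 hA).1 with ⟨m, b, rfl⟩ | ⟨c, rfl⟩
        · exact absurd ⟨mem_blk.1 hxA, mem_blk.1 hyA⟩ (hno m b)
        · have := mem_Vt.1 (mem_blk.1 hxA)
          rw [this]
    · refine ⟨blk f (Ln q (2 * n) m b), ⟨?_, ?_, ?_⟩, ?_⟩
      · rw [hmemH]
        exact ⟨Or.inl ⟨m, b, rfl⟩, one_lt_card.2 ⟨x, mem_blk.2 hmb.1, y, mem_blk.2 hmb.2, hxy⟩⟩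
      · exact mem_blk.2 hmb.1
      · exact mem_blk.2 hmb.2
      · rintro A ⟨hA, hxA, hyA⟩
        rcases ((hmemH A).1 hA).1 with ⟨m', b', rfl⟩ | ⟨c, rfl⟩
        · obtain ⟨rfl, rfl⟩ := huniq m' b' ⟨mem_blk.1 hxA, mem_blk.1 hyA⟩
          rfl
        · exact absurd ((mem_Vt.1 (mem_blk.1 hxA)).trans (mem_Vt.1 (mem_blk.1 hyA)).symm) hx
  · intro A hA
    have hqn : q < n := by
      by_contra h
      have h3 : n * n ≤ 8 * n := (Nat.mul_le_mul (not_lt.1 h) (not_lt.1 h)).trans h2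
      have h4 := Nat.le_of_mul_le_mul_right h3 (by omega)
      omega
    have hle : ∀ L : Finset (Fin (2 * n)), L.card ≤ q → (blk f L).card < n := by
      intro L hL
      rw [card_blk S hS]
      exact lt_of_le_of_lt ((card_le_card inter_subset_left).trans hL) hqn
    rcases ((hmemH A).1 hA).1 with ⟨m, b, rfl⟩ | ⟨c, rfl⟩
    · exact hle _ (card_Ln_le hN m b)
    · exact hle _ (card_Vt_le hN c)
  · intro t
    have hcount : (H.filter fun A => A.card = t).card ≤ q * (11 * (Nat.sqrt q + 1)) := by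
      have hsub : (H.filter fun A => A.card = t) ⊆
          ((univ : Finset (ZMod q)).biUnion fun m =>
            ((univ : Finset (ZMod q)).filter fun b => (Ln q (2 * n) m b ∩ S).card = t).image
              fun b => blk f (Ln q (2 * n) m b)) ∪
          (univ : Finset (ZMod q)).image fun c => blk f (Vt q (2 * n) c) := by
        intro A hA
        rw [mem_filter] at hA
        rw [mem_union, mem_biUnion]
        rcases ((hmemH A).1 hA.1).1 with ⟨m, b, rfl⟩ | ⟨c, rfl⟩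
        · left
          refine ⟨m, mem_univ _, mem_image.2 ⟨b, ?_, rfl⟩⟩
          rw [mem_filter]
          exact ⟨mem_univ _, by rw [← card_blk S hS]; exact hA.2⟩
        · right
          exact mem_image.2 ⟨c, mem_univ _, rfl⟩
      refine (card_le_card hsub).trans ((card_union_le _ _).trans ?_)
      have h3 : ((univ : Finset (ZMod q)).biUnion fun m =>
            ((univ : Finset (ZMod q)).filter fun b => (Ln q (2 * n) m b ∩ S).card = t).image
              fun b => blk f (Ln q (2 * n) m b)).card ≤ q * (11 * (Nat.sqrt q + 1) - 1) := by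
        refine card_biUnion_le.trans ?_
        refine (sum_le_card_nsmul _ _ (11 * (Nat.sqrt q + 1) - 1) fun m _ => ?_).trans ?_
        · refine card_image_le.trans ?_
          have h4 := hgood m t
          refine Nat.le_sub_one_of_lt (lt_of_le_of_lt (le_of_eq ?_) h4)
          congr 1
        · rw [card_univ, ZMod.card, smul_eq_mul]
      have h5 : ((univ : Finset (ZMod q)).image fun c => blk f (Vt q (2 * n) c)).card ≤ q :=
        card_image_le.trans (le_of_eq (by rw [card_univ, ZMod.card]))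
      refine (add_le_add h3 h5).trans (le_of_eq ?_)
      have h6 : 1 ≤ 11 * (Nat.sqrt q + 1) := by omega
      rw [Nat.mul_sub, Nat.mul_one]
      have h7 : q ≤ q * (11 * (Nat.sqrt q + 1)) := Nat.le_mul_of_pos_right _ h6
      omega
    have hq0 : (0 : ℝ) < q := by exact_mod_cast hq.pos
    have hq1 : (1 : ℝ) ≤ Real.sqrt q := by
      rw [show (1 : ℝ) = Real.sqrt 1 by simp]
      exact Real.sqrt_le_sqrt (by exact_mod_cast hq.one_lt.le)
    have hc2 : ((H.filter fun A => A.card = t).card : ℝ) ≤ 22 * (q * Real.sqrt q) := by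
      have h3 : ((H.filter fun A => A.card = t).card : ℝ) ≤ (q : ℝ) * (11 * ((Nat.sqrt q : ℕ) + 1)) := by
        exact_mod_cast hcount
      have h4 : ((Nat.sqrt q : ℕ) : ℝ) ≤ Real.sqrt q := Real.nat_sqrt_le_real_sqrt
      have h5 : (q : ℝ) * (11 * ((Nat.sqrt q : ℕ) + 1)) ≤ q * (11 * (Real.sqrt q + Real.sqrt q)) :=
        mul_le_mul_of_nonneg_left (by linarith) hq0.le
      linarith
    have h6 : (q : ℝ) * Real.sqrt q ≤ 4.76 * (n : ℝ) ^ (3 / 4 : ℝ) := by
      refine le_of_pow_le_pow_left₀ (n := 4) (by norm_num) (by positivity) ?_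
      have e1 : ((q : ℝ) * Real.sqrt q) ^ 4 = ((q : ℝ) * q) ^ 3 := by
        have : Real.sqrt q ^ 4 = (q : ℝ) ^ 2 := by
          rw [show 4 = 2 * 2 by norm_num, pow_mul, Real.sq_sqrt hq0.le]
        rw [mul_pow, this]; ring
      have e2 : ((n : ℝ) ^ (3 / 4 : ℝ)) ^ 4 = (n : ℝ) ^ 3 := by
        rw [← Real.rpow_natCast, ← Real.rpow_mul (Nat.cast_nonneg n)]
        norm_num
      rw [e1, mul_pow (4.76 : ℝ) _ 4, e2]
      have h7 : (q : ℝ) * q ≤ 8 * n := by exact_mod_cast h2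
      have h8 : ((q : ℝ) * q) ^ 3 ≤ (8 * n) ^ 3 := pow_le_pow_left₀ (by positivity) h7 3
      have h9 : (0 : ℝ) ≤ (n : ℝ) ^ 3 := by positivity
      refine h8.trans ?_
      rw [mul_pow]
      nlinarith
    have h10 : (0 : ℝ) ≤ (n : ℝ) ^ (3 / 4 : ℝ) := by positivity
    calc ((H.filter fun A => A.card = t).card : ℝ) ≤ 22 * (q * Real.sqrt q) := hc2
      _ ≤ 22 * (4.76 * (n : ℝ) ^ (3 / 4 : ℝ)) := by linarith
      _ ≤ 105 * (n : ℝ) ^ (3 / 4 : ℝ) := by nlinarith

end Pool.Agent.H726.BD
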